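import Pool.Agent.Y84.PC.H

set_option autoImplicit false
set_option linter.unusedSectionVars false

/-! The trace of an idempotent matrix whose partial augmentations off `1` vanish is the rank of its
augmentation. -/

namespace Pool.Agent.Y84.PA

open Pool.Agent.H26R2.Bass (tau tau_eq U_eq_ell)
open Pool.Agent.H23R2.Cyc (tf tf_apply)
open Pool.Agent.H26R2.IdemLI (U cind U_class U_eq_sum kaplansky)
open Pool.Agent.Y84.PC (LocCen tau_zero_of_locCen)

universe u v

variable {K : Type u} [Field K] [CharZero K] {G : Type v} [Group G] {n : ℕ}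

theorem U_cind (E : Matrix (Fin n) (Fin n) (MonoidAlgebra K G)) (g : G) :
    U (cind K g) (∑ i, E i i) = tau E g := by
  rw [U_eq_ell, map_sum, ← tf_apply, tau_eq]

/-- the augmentation -/
noncomputable def aug (K : Type u) [Field K] (G : Type v) [Group G] : MonoidAlgebra K G →ₐ[K] K :=
  MonoidAlgebra.lift K K G 1

theorem aug_eq (x : MonoidAlgebra K G) : aug K G x = ∑ y ∈ x.coeff.support, x.coeff y := by
  unfold aug
  rw [MonoidAlgebra.lift_apply]
  unfold Finsupp.sum
  refine Finset.sum_congr rfl (fun y _ => ?_)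
  simp

/-- if all partial augmentations off `1` vanish -/
theorem trace_nat (E : Matrix (Fin n) (Fin n) (MonoidAlgebra K G)) (hE : E * E = E)
    (h : ∀ g : G, g ≠ 1 → tau E g = 0) :
    ∃ a : ℕ, ∑ i, (E i i).coeff 1 = a ∧ (a : K) = ∑ i, aug K G (E i i) ∧ a ≤ n ∧
      (a = 0 → E = 0) := by
  classical
  have hB : E.map (aug K G) * E.map (aug K G) = E.map (aug K G) := by
    rw [← Matrix.map_mul, hE]
  obtain ⟨a, h1, h2, -⟩ := Pool.Agent.Y84.PT.trace_idem (E.map (aug K G)) hB
  rw [Fintype.card_fin] at h2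
  have h3 : U (fun y => if y = (1 : G) then (0 : K) else 1) (∑ i, E i i) = 0 := by
    apply U_class
    · intro x y hxy
      have h4 : x = 1 ↔ y = 1 := by
        constructor
        · intro h5
          rw [h5] at hxy
          exact isConj_one_right.1 hxy
        · intro h5
          rw [h5] at hxy
          exact isConj_one_left.1 hxy
      simp only [h4]
    · intro g hg
      rw [U_cind]
      apply h
      intro h4
      exact hg (if_pos h4)
  set x := ∑ i, E i i with hx
  have h4 : aug K G x = x.coeff 1 := by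
    rw [aug_eq]
    rw [U_eq_sum _ _ _ subset_rfl] at h3
    have h5 : ∑ y ∈ x.coeff.support, x.coeff y =
        ∑ y ∈ x.coeff.support, (x.coeff y * (if y = 1 then (0 : K) else 1) +
          (if y = 1 then x.coeff y else 0)) := by
      refine Finset.sum_congr rfl (fun y _ => ?_)
      split_ifs <;> ring
    rw [h5, Finset.sum_add_distrib, h3, zero_add, Finset.sum_ite_eq']
    split_ifs with h6
    · rfl
    · exact (Finsupp.notMem_support_iff.1 h6).symm
  have h5 : ∑ i, (E i i).coeff 1 = x.coeff 1 := by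
    rw [hx, MonoidAlgebra.coeff_sum, Finsupp.finsetSum_apply]
  have h6 : Matrix.trace (E.map (aug K G)) = aug K G x := by
    rw [hx, map_sum]
    rfl
  refine ⟨a, ?_, ?_, h2, ?_⟩
  · rw [h5, ← h4, ← h6, h1]
  · rw [← h1]
    rfl
  · intro ha
    apply kaplansky E hE
    rw [← hx, ← h4, ← h6, h1, ha, Nat.cast_zero]

theorem trace_nat_of_locCen (E : Matrix (Fin n) (Fin n) (MonoidAlgebra K G)) (hE : E * E = E)
    (h : ∀ g : G, g ≠ 1 → LocCen g) :
    ∃ a : ℕ, ∑ i, (E i i).coeff 1 = a ∧ (a : K) = ∑ i, aug K G (E i i) ∧ a ≤ n ∧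
      (a = 0 → E = 0) :=
  trace_nat E hE (fun g hg => tau_zero_of_locCen E hE (h g hg))

/-- the trace of an idempotent matrix over a field is its rank -/
theorem trace_rank (P : Matrix (Fin n) (Fin n) K) (hP : P * P = P) : P.trace = P.rank := by
  have h1 : IsIdempotentElem (Matrix.toLin' P) := by
    unfold IsIdempotentElem
    rw [Module.End.mul_eq_comp, ← Matrix.toLin'_mul, hP]
  rw [← Matrix.trace_toLin'_eq]
  have h2 := (LinearMap.IsIdempotentElem.isProj_range _ h1).trace
  rw [h2]
  rfl

/-- von Neumann regular matrices -/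
theorem trace_regular {m : ℕ} (A : Matrix (Fin m) (Fin n) (MonoidAlgebra K G))
    (X : Matrix (Fin n) (Fin m) (MonoidAlgebra K G)) (hA : A * X * A = A)
    (h : ∀ g : G, g ≠ 1 → LocCen g) :
    ∑ i, (((1 : Matrix (Fin m) (Fin m) (MonoidAlgebra K G)) - A * X) i i).coeff 1 =
      (m : K) - ((A.map (aug K G)).rank : K) := by
  classical
  have hAX : (A * X) * (A * X) = A * X := by rw [← Matrix.mul_assoc, hA]
  have hE : ((1 : Matrix (Fin m) (Fin m) (MonoidAlgebra K G)) - A * X) * (1 - A * X) =
      1 - A * X := by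
    rw [mul_sub, sub_mul, sub_mul, one_mul, mul_one, one_mul, hAX]
    abel
  obtain ⟨a, h1, h2, -, -⟩ := trace_nat_of_locCen _ hE h
  rw [h1, h2]
  have h3 : ∑ i, aug K G (((1 : Matrix (Fin m) (Fin m) (MonoidAlgebra K G)) - A * X) i i) =
      Matrix.trace (1 - A.map (aug K G) * X.map (aug K G)) := by
    unfold Matrix.trace
    refine Finset.sum_congr rfl (fun i _ => ?_)
    rw [Matrix.diag_apply, Matrix.sub_apply, Matrix.sub_apply, map_sub, ← Matrix.map_mul,
      Matrix.map_apply, Matrix.one_apply_eq, Matrix.one_apply_eq, map_one]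
  rw [h3, Matrix.trace_sub, Matrix.trace_one, Fintype.card_fin]
  congr 1
  set B := A.map (aug K G) with hB
  set Y := X.map (aug K G) with hY
  have h4 : B * Y * B = B := by
    rw [hB, hY, ← Matrix.map_mul, ← Matrix.map_mul, hA]
  rw [trace_rank (B * Y) (by rw [← Matrix.mul_assoc, h4])]
  congr 1
  apply le_antisymm
  · exact Matrix.rank_mul_le_left B Y
  · calc B.rank = (B * Y * B).rank := by rw [h4]
      _ ≤ (B * Y).rank := Matrix.rank_mul_le_left _ _

end Pool.Agent.Y84.PA
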