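import Pool.Agent.TH57.Thr.Ati2
import Pool.Agent.H71R2.Idem.MatKer

set_option autoImplicit false
set_option linter.unusedSectionVars false

/-! Kernel dimensions of von Neumann regular matrices over complex group rings. -/

namespace Pool.Agent.Y84.PA

open TH57.Thr.Ati (Rop kap kerC kerC_dim Rop_mul)
open Pool.Agent.H71R2.Idem.MatKer (R K dl mem_K one_sub_infDist)
open Pool.Agent.H71R2.Idem.Mat (T)
open scoped ENNReal

variable {G : Type} [Group G] {m n : ℕ}

theorem kap_regular (A : Matrix (Fin m) (Fin n) (MonoidAlgebra ℂ G))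
    (X : Matrix (Fin n) (Fin m) (MonoidAlgebra ℂ G)) (h : A * X * A = A) :
    kap A = kap (A * X) := by
  unfold kap
  congr 1
  ext F
  rw [LinearMap.mem_ker, LinearMap.mem_ker]
  constructor
  · intro h1
    change Rop (A * X) F = 0
    have h2 : Rop A F = 0 := h1
    rw [Rop_mul, ContinuousLinearMap.comp_apply, h2, map_zero]
  · intro h1
    change Rop A F = 0
    have h2 : Rop (A * X) F = 0 := h1
    rw [← h, Rop_mul, ContinuousLinearMap.comp_apply, h2, map_zero]

theorem kerC_eq [DecidableEq G] (B : Matrix (Fin m) (Fin m) (MonoidAlgebra ℂ G)) :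
    kerC B = (K B : Set _) := by
  ext x
  rw [SetLike.mem_coe, mem_K]
  constructor
  · intro hx
    ext q
    obtain ⟨j, g⟩ := q
    rw [Pool.Agent.H71R2.Idem.MatKer.R_apply]
    exact hx j g
  · intro hx j g
    have h1 := Pool.Agent.H71R2.Idem.MatKer.R_apply B x j g
    rw [hx] at h1
    exact h1.symm

theorem kap_idem (B : Matrix (Fin m) (Fin m) (MonoidAlgebra ℂ G)) (hB : B * B = B) :
    ((kap B : ℝ) : ℂ) = ∑ i, ((1 - B) i i).coeff 1 := by
  classical
  rw [← kerC_dim, kerC_eq]
  have h1 := Pool.Agent.H71R2.Idem.MatKer.trace_eq B (1 - B)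
    (fun x => by
      have h2 : R B (R (1 - B) x) = R ((1 - B) * B) x := by
        rw [Pool.Agent.H71R2.Idem.MatKer.R_mul]; rfl
      rw [h2, sub_mul, one_mul, hB, sub_self, map_zero]
      rfl)
    (fun x hx => by
      rw [map_sub, Pool.Agent.H71R2.Idem.MatKer.R_one]
      change x - R B x = x
      rw [hx, sub_zero])
  rw [Pool.Agent.H71R2.Idem.Mat.T_apply] at h1
  rw [h1]
  congr 1
  refine Finset.sum_congr rfl (fun i _ => ?_)
  rw [← one_sub_infDist]
  rfl

open Classical in
/-- the kernel dimension of a von Neumann regular matrix is the trace of an idempotent -/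
theorem dim_regular (A : Matrix (Fin m) (Fin n) (MonoidAlgebra ℂ G))
    (X : Matrix (Fin n) (Fin m) (MonoidAlgebra ℂ G)) (h : A * X * A = A) :
    (((∑ i : Fin m, (1 - Metric.infDist
      (lp.single (E := fun _ : Fin m × G => ℂ) 2 (i, (1 : G)) (1 : ℂ)) (kerC A) ^ 2) : ℝ)) : ℂ) =
      ∑ i, (((1 : Matrix (Fin m) (Fin m) (MonoidAlgebra ℂ G)) - A * X) i i).coeff 1 := by
  rw [kerC_dim, kap_regular A X h, kap_idem]
  rw [← Matrix.mul_assoc, h]

end Pool.Agent.Y84.PA
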