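import Pool.Agent.Y84.PA.Ker
import Pool.Agent.Y84.PA.Int

set_option autoImplicit false
set_option linter.unusedSectionVars false

/-! Kernel dimensions of von Neumann regular matrices: torsion-free groups with residually finite
centralisers, and groups locally embeddable into finite groups. -/

namespace Pool.Agent.Y84.PA

open Pool.Agent.H26R2.Bass (tau Good)
open Pool.Agent.Y84.PC (LocCen bass_local)
open TH57.Thr.Ati (kerC)
open scoped ENNReal

universe u v

section

variable {K : Type u} [Field K] [CharZero K] {G : Type v} [Group G] {m n : ℕ}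

/-- von Neumann regular matrices -/
theorem trace_regular' (A : Matrix (Fin m) (Fin n) (MonoidAlgebra K G))
    (X : Matrix (Fin n) (Fin m) (MonoidAlgebra K G)) (hA : A * X * A = A)
    (h : ∀ E : Matrix (Fin m) (Fin m) (MonoidAlgebra K G), E * E = E →
      ∀ g : G, g ≠ 1 → tau E g = 0) :
    ∑ i, (((1 : Matrix (Fin m) (Fin m) (MonoidAlgebra K G)) - A * X) i i).coeff 1 =
      (m : K) - ((A.map (aug K G)).rank : K) ∧ ((A.map (aug K G)).rank = m → A * X = 1) := by
  classical
  have hAX : (A * X) * (A * X) = A * X := by rw [← Matrix.mul_assoc, hA]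
  have hE : ((1 : Matrix (Fin m) (Fin m) (MonoidAlgebra K G)) - A * X) * (1 - A * X) =
      1 - A * X := by
    rw [mul_sub, sub_mul, sub_mul, one_mul, mul_one, one_mul, hAX]
    abel
  obtain ⟨a, h1, h2, -, h2'⟩ := trace_nat _ hE (fun g hg => h _ hE g hg)
  have h3 : ∑ i, aug K G (((1 : Matrix (Fin m) (Fin m) (MonoidAlgebra K G)) - A * X) i i) =
      Matrix.trace (1 - A.map (aug K G) * X.map (aug K G)) := by
    unfold Matrix.trace
    refine Finset.sum_congr rfl (fun i _ => ?_)
    rw [Matrix.diag_apply, Matrix.sub_apply, Matrix.sub_apply, map_sub, ← Matrix.map_mul,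
      Matrix.map_apply, Matrix.one_apply_eq, Matrix.one_apply_eq, map_one]
  have h5 : Matrix.trace (1 - A.map (aug K G) * X.map (aug K G)) =
      (m : K) - ((A.map (aug K G)).rank : K) := by
    rw [Matrix.trace_sub, Matrix.trace_one, Fintype.card_fin]
    congr 1
    set B := A.map (aug K G) with hB
    set Y := X.map (aug K G) with hY
    have h4 : B * Y * B = B := by
      rw [hB, hY, ← Matrix.map_mul, ← Matrix.map_mul, hA]
    rw [trace_rank (B * Y) (by rw [← Matrix.mul_assoc, h4])]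
    congr 1
    apply le_antisymm
    · exact Matrix.rank_mul_le_left B Y
    · calc B.rank = (B * Y * B).rank := by rw [h4]
        _ ≤ (B * Y).rank := Matrix.rank_mul_le_left _ _
  refine ⟨by rw [h1, h2, h3, h5], fun hr => ?_⟩
  have h6 : (a : K) = 0 := by rw [h2, h3, h5, hr, sub_self]
  have h7 : a = 0 := by exact_mod_cast h6
  exact (sub_eq_zero.1 (h2' h7)).symm

end

section

variable {G : Type} [Group G] {m n : ℕ}

theorem ker_eq (A : Matrix (Fin m) (Fin n) (MonoidAlgebra ℂ G)) :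
    {x : lp (fun _ : Fin m × G => ℂ) 2 | ∀ (j : Fin n) (g : G),
      ∑ i : Fin m, (A i j).coeff.sum (fun h c => x (i, g * h⁻¹) * c) = 0} = kerC A := rfl

open Classical in
/-- integrality -/
theorem dim_int (A : Matrix (Fin m) (Fin n) (MonoidAlgebra ℂ G))
    (X : Matrix (Fin n) (Fin m) (MonoidAlgebra ℂ G)) (hA : A * X * A = A)
    (h : ∀ E : Matrix (Fin m) (Fin m) (MonoidAlgebra ℂ G), E * E = E →
      ∀ g : G, g ≠ 1 → tau E g = 0) :
    ∑ i : Fin m, (1 - Metric.infDist
      (lp.single (E := fun _ : Fin m × G => ℂ) 2 (i, (1 : G)) (1 : ℂ)) (kerC A) ^ 2) =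
      (m : ℝ) - ((A.map (aug ℂ G)).rank : ℝ) ∧ ((A.map (aug ℂ G)).rank = m → A * X = 1) := by
  obtain ⟨h1, h2⟩ := trace_regular' A X hA h
  refine ⟨?_, h2⟩
  have h3 := dim_regular A X hA
  rw [h1] at h3
  have h4 : (((m : ℝ) - ((A.map (aug ℂ G)).rank : ℝ) : ℝ) : ℂ) =
      (m : ℂ) - ((A.map (aug ℂ G)).rank : ℂ) := by push_cast; rfl
  rw [← h4] at h3
  exact_mod_cast h3

theorem tau_zero_tf (htf : ∀ g : G, IsOfFinOrder g → g = 1)
    (hG : ∀ H : Subgroup G, H.FG → ∀ x : H, x ≠ 1 → LocCen x ∨ Good ℂ x)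
    (E : Matrix (Fin m) (Fin m) (MonoidAlgebra ℂ G)) (hE : E * E = E) (g : G) (hg : g ≠ 1) :
    tau E g = 0 := by
  refine bass_local (fun H hH h hh => ?_) E hE g ?_
  · have h1 : h ≠ 1 := by
      rintro rfl
      exact hh IsOfFinOrder.one
    rcases hG H hH h h1 with h2 | h2
    · exact Or.inl h2
    · right
      refine ⟨⊥, inferInstance, ?_⟩
      exact Pool.Agent.H26R2.Bass.good_of_hom (QuotientGroup.quotientBot (G := H)).toMonoidHom
        (QuotientGroup.mk' ⊥ h) h2
  · have h1 : orderOf g = 0 := orderOf_eq_zero (fun h2 => hg (htf g h2))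
    rw [h1, Nat.cast_zero]
    exact not_isUnit_zero

open Classical in
/-- rationality over groups locally embeddable into finite groups -/
theorem dim_rat (hG : Pool.Agent.Y84.PT.LEF G) (A : Matrix (Fin m) (Fin n) (MonoidAlgebra ℂ G))
    (X : Matrix (Fin n) (Fin m) (MonoidAlgebra ℂ G)) (hA : A * X * A = A) :
    ∃ r : ℚ, ∑ i : Fin m, (1 - Metric.infDist
      (lp.single (E := fun _ : Fin m × G => ℂ) 2 (i, (1 : G)) (1 : ℂ)) (kerC A) ^ 2) = (r : ℝ) ∧
      ∀ p : ℕ, p.Prime → p ∣ r.den → ∃ g : G, orderOf g = p := by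
  have hAX : (A * X) * (A * X) = A * X := by rw [← Matrix.mul_assoc, hA]
  have hE : ((1 : Matrix (Fin m) (Fin m) (MonoidAlgebra ℂ G)) - A * X) * (1 - A * X) =
      1 - A * X := by
    rw [mul_sub, sub_mul, sub_mul, one_mul, mul_one, one_mul, hAX]
    abel
  obtain ⟨r, h1, -, -, -, h5⟩ := Pool.Agent.Y84.PT.tau_rat hG hE
  refine ⟨r, ?_, h5⟩
  have h3 := dim_regular A X hA
  rw [h1] at h3
  have h4 : (((r : ℝ) : ℝ) : ℂ) = (r : ℂ) := by push_cast; rfl
  rw [← h4] at h3
  exact_mod_cast h3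

end

end Pool.Agent.Y84.PA
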